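import Mathlib

/-!
Large values of a nondecreasing function minus a smooth main term fill cells; the number of the cells is bounded by the
mean square.
-/

set_option autoImplicit false

open MeasureTheory Filter Topology Set Real

namespace Pool.Agent.D0H48.Pk

/-- the main term moves slowly -/
def Slow (M : ℝ → ℝ) (L η : ℝ) : Prop :=
  ∀ y z : ℝ, 1 ≤ y → y / 2 ≤ z → z ≤ 2 * y → |M z - M y| ≤ L * y ^ η * |z - y|

lemma persist {F M : ℝ → ℝ} (hF : Monotone F) {L η θ y h : ℝ} (hM : Slow M L η) (hy : 1 ≤ y) (hh : 0 ≤ h) (hhy : h ≤ y / 2)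
    (hL : L * y ^ η * h ≤ y ^ θ / 2) (hbig : y ^ θ < |F y - M y|) :
    (∀ z ∈ Icc y (y + h), y ^ θ / 2 ≤ |F z - M z|) ∨ (∀ z ∈ Icc (y - h) y, y ^ θ / 2 ≤ |F z - M z|) := by
  have hLz : ∀ z : ℝ, |z - y| ≤ h → |M z - M y| ≤ y ^ θ / 2 := by
    intro z hz
    have h1 := abs_le.1 hz
    have h2 := hM y z hy (by linarith) (by linarith)
    rcases le_or_gt 0 (L * y ^ η) with h3 | h3
    · exact h2.trans ((mul_le_mul_of_nonneg_left hz h3).trans hL)
    · have h4 : L * y ^ η * |z - y| ≤ 0 := mul_nonpos_of_nonpos_of_nonneg h3.le (abs_nonneg _)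
      have h5 : 0 ≤ y ^ θ := Real.rpow_nonneg (by linarith) _
      linarith
  rcases lt_abs.1 hbig with h1 | h1
  · left
    intro z hz
    have h2 := hF hz.1
    have h3 := hLz z (by rw [abs_of_nonneg (by linarith [hz.1])]; linarith [hz.2])
    have h4 := (abs_le.1 h3).2
    exact le_trans (by linarith) (le_abs_self _)
  · right
    intro z hz
    have h2 := hF hz.2
    have h3 := hLz z (by rw [abs_sub_comm, abs_of_nonneg (by linarith [hz.2])]; linarith [hz.1])
    have h4 := (abs_le.1 h3).1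
    exact le_trans (by linarith) (neg_le_abs _)

/-- the cells with a large value -/
def BadC (Δ : ℝ → ℝ) (κ θ : ℝ) : Set ℕ := {m : ℕ | ∃ y : ℝ, 0 < y ∧ (m : ℝ) ≤ y ^ κ ∧ y ^ κ < m + 1 ∧ y ^ θ < |Δ y|}

/-- the neighbourhoods of the cells -/
def Nb (κ : ℝ) (m : ℕ) : Set ℝ := {z : ℝ | 0 < z ∧ (m : ℝ) - 1 ≤ z ^ κ ∧ z ^ κ ≤ m + 2}

lemma Nb_meas (κ : ℝ) (m : ℕ) : MeasurableSet (Nb κ m) := by
  have h1 : Measurable fun z : ℝ => z ^ κ := measurable_id.pow_const κ
  exact (measurableSet_lt measurable_const measurable_id).inter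
    ((measurableSet_le measurable_const h1).inter (measurableSet_le h1 measurable_const))

/-- a bad cell has a large contribution to the mean square -/
lemma bad_mass {F M : ℝ → ℝ} (hF : Monotone F) {L η θ κ : ℝ} (hM : Slow M L η) (hη : 0 ≤ η) (hηθ : η ≤ θ)
    (hκ0 : 0 < κ) (hκ : κ = 1 - θ + η) {c : ℝ} (hc0 : 0 < c) (hc1 : c ≤ 1 / 2) (hcL : L * c ≤ 1 / 2) {m : ℕ} (hm : 1 ≤ m)
    (hbad : m ∈ BadC (fun x => F x - M x) κ θ) (hint : IntegrableOn (fun x => (F x - M x) ^ 2) (Nb κ m)) :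
    c / 4 * (m : ℝ) ^ ((1 - κ + 2 * θ) / κ) ≤ ∫ x in Nb κ m, (F x - M x) ^ 2 := by
  obtain ⟨y, hy0, hy1, hy2, hy3⟩ := hbad
  have hm1 : (1:ℝ) ≤ m := by exact_mod_cast hm
  have hy : 1 ≤ y := by
    by_contra hcon
    push Not at hcon
    have := Real.rpow_lt_one hy0.le hcon hκ0
    linarith
  have hκ1 : κ ≤ 1 := by linarith
  set h : ℝ := c * y ^ (1 - κ) with hh
  have hyp : 0 < y ^ (1 - κ) := Real.rpow_pos_of_pos hy0 _
  have hh0 : 0 < h := by positivity
  have hyle : y ^ (1 - κ) ≤ y := by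
    conv_rhs => rw [← Real.rpow_one y]
    exact Real.rpow_le_rpow_of_exponent_le hy (by linarith)
  have hhy : h ≤ y / 2 := by
    calc h ≤ 1 / 2 * y := mul_le_mul hc1 hyle hyp.le (by norm_num)
      _ = y / 2 := by ring
  have hLh : L * y ^ η * h ≤ y ^ θ / 2 := by
    have e1 : L * y ^ η * h = L * c * y ^ θ := by
      rw [hh, show L * y ^ η * (c * y ^ (1 - κ)) = L * c * (y ^ η * y ^ (1 - κ)) by ring, ← Real.rpow_add hy0]
      congr 2
      linarith
    rw [e1]
    calc L * c * y ^ θ ≤ 1 / 2 * y ^ θ := mul_le_mul_of_nonneg_right hcL (by positivity)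
      _ = _ := by ring
  have hpers := persist hF hM hy hh0.le hhy hLh hy3
  -- the two intervals lie in the neighbourhood
  have e2 : y ^ (1 - κ) * y ^ (κ - 1) = 1 := by
    rw [← Real.rpow_add hy0]
    norm_num
  have hR : Icc y (y + h) ⊆ Nb κ m := by
    intro z hz
    have hz0 : 0 < z := by linarith [hz.1]
    refine ⟨hz0, ?_, ?_⟩
    · have := Real.rpow_le_rpow hy0.le hz.1 hκ0.le
      linarith
    · have h1 : z ^ κ ≤ (y + h) ^ κ := Real.rpow_le_rpow hz0.le hz.2 hκ0.le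
      have h2 : (y + h) ^ κ = y ^ κ * (1 + h / y) ^ κ := by
        rw [← Real.mul_rpow hy0.le (by positivity)]
        congr 1
        field_simp
      have h3 : (1 + h / y) ^ κ ≤ 1 + κ * (h / y) := by
        have h30 : 0 ≤ h / y := by positivity
        have := rpow_one_add_le_one_add_mul_self (s := h / y) (by linarith) hκ0.le hκ1
        linarith
      have h4 : y ^ κ * (κ * (h / y)) = κ * c := by
        rw [hh]
        have e3 : y ^ κ = y * y ^ (κ - 1) := by
          rw [Real.rpow_sub_one hy0.ne']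
          field_simp
        rw [e3]
        field_simp
        nlinarith [e2]
      have h5 : z ^ κ ≤ y ^ κ + κ * c := by
        calc z ^ κ ≤ y ^ κ * (1 + h / y) ^ κ := by rw [← h2]; exact h1
          _ ≤ y ^ κ * (1 + κ * (h / y)) := mul_le_mul_of_nonneg_left h3 (by positivity)
          _ = y ^ κ + κ * c := by rw [mul_add, mul_one, h4]
      nlinarith
  have hLf : Icc (y - h) y ⊆ Nb κ m := by
    intro z hz
    have hz0 : 0 < z := by linarith [hz.1]
    refine ⟨hz0, ?_, ?_⟩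
    · have h1 : (y - h) ^ κ ≤ z ^ κ := Real.rpow_le_rpow (by linarith) hz.1 hκ0.le
      have h2 : (y - h) ^ κ = y ^ κ * (1 - h / y) ^ κ := by
        rw [← Real.mul_rpow hy0.le (by
          rw [sub_nonneg, div_le_one hy0]; linarith)]
        congr 1
        field_simp
      have h3 : 1 - h / y ≤ (1 - h / y) ^ κ := by
        have h30 : 0 ≤ 1 - h / y := by rw [sub_nonneg, div_le_one hy0]; linarith
        have h311 : 0 ≤ h / y := by positivity
        have h31 : 1 - h / y ≤ 1 := by linarith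
        conv_lhs => rw [← Real.rpow_one (1 - h / y)]
        rcases eq_or_lt_of_le h30 with h32 | h32
        · rw [← h32, Real.zero_rpow one_ne_zero]
          exact Real.rpow_nonneg le_rfl _
        · exact Real.rpow_le_rpow_of_exponent_ge h32 h31 hκ1
      have h4 : y ^ κ * (h / y) = c := by
        rw [hh]
        have e3 : y ^ κ = y * y ^ (κ - 1) := by
          rw [Real.rpow_sub_one hy0.ne']
          field_simp
        rw [e3]
        field_simp
        nlinarith [e2]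
      have h5 : y ^ κ - c ≤ z ^ κ := by
        calc y ^ κ - c = y ^ κ * (1 - h / y) := by rw [mul_sub, mul_one, h4]
          _ ≤ y ^ κ * (1 - h / y) ^ κ := mul_le_mul_of_nonneg_left h3 (by positivity)
          _ ≤ z ^ κ := by rw [← h2]; exact h1
      linarith
    · have := Real.rpow_le_rpow hz0.le hz.2 hκ0.le
      linarith
  -- the lower bound on an interval of length `h`
  have hval : c / 4 * (m : ℝ) ^ ((1 - κ + 2 * θ) / κ) ≤ h * (y ^ θ / 2) ^ 2 := by
    have h1 : (m : ℝ) ^ ((1 - κ + 2 * θ) / κ) ≤ y ^ (1 - κ + 2 * θ) := by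
      calc (m : ℝ) ^ ((1 - κ + 2 * θ) / κ) ≤ (y ^ κ) ^ ((1 - κ + 2 * θ) / κ) :=
            Real.rpow_le_rpow (by positivity) hy1 (div_nonneg (by linarith) hκ0.le)
        _ = y ^ (1 - κ + 2 * θ) := by
            rw [← Real.rpow_mul hy0.le]
            congr 1
            field_simp
    have h2 : h * (y ^ θ / 2) ^ 2 = c / 4 * y ^ (1 - κ + 2 * θ) := by
      rw [hh, Real.rpow_add hy0, show (2 * θ) = θ * (2:ℕ) by push_cast; ring, Real.rpow_mul hy0.le, Real.rpow_natCast]
      ring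
    rw [h2]
    exact mul_le_mul_of_nonneg_left h1 (by positivity)
  have hlow : ∀ I : Set ℝ, I ⊆ Nb κ m → MeasurableSet I → volume I = ENNReal.ofReal h →
      (∀ z ∈ I, y ^ θ / 2 ≤ |F z - M z|) → h * (y ^ θ / 2) ^ 2 ≤ ∫ x in Nb κ m, (F x - M x) ^ 2 := by
    intro I hI hIm hvol hz
    have h1 : ∫ x in I, (F x - M x) ^ 2 ≤ ∫ x in Nb κ m, (F x - M x) ^ 2 :=
      setIntegral_mono_set hint (Eventually.of_forall fun x => sq_nonneg _) (Eventually.of_forall hI)
    have h2 : ∫ _ in I, (y ^ θ / 2) ^ 2 = h * (y ^ θ / 2) ^ 2 := by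
      rw [setIntegral_const, smul_eq_mul, measureReal_def, hvol, ENNReal.toReal_ofReal hh0.le]
    rw [← h2]
    refine le_trans ?_ h1
    apply setIntegral_mono_on ?_ (hint.mono_set hI) hIm
    · intro z hzI
      have h3 : 0 ≤ y ^ θ / 2 := by positivity
      have h4 := hz z hzI
      rw [← sq_abs (F z - M z)]
      exact pow_le_pow_left₀ h3 h4 2
    · rw [integrableOn_const_iff (by simp)]
      right
      rw [hvol]
      exact ENNReal.ofReal_lt_top
  refine hval.trans ?_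
  rcases hpers with hp | hp
  · exact hlow _ hR measurableSet_Icc (by rw [Real.volume_Icc]; congr 1; ring) hp
  · exact hlow _ hLf measurableSet_Icc (by rw [Real.volume_Icc]; congr 1; ring) hp

/-- **the number of bad cells** -/
theorem bad_count {F M : ℝ → ℝ} (hF : Monotone F) {L η θ κ : ℝ} (hM : Slow M L η) (hη : 0 ≤ η) (hηθ : η ≤ θ)
    (hκ0 : 0 < κ) (hκ : κ = 1 - θ + η) (hint : ∀ x : ℝ, 1 ≤ x → IntegrableOn (fun x => (F x - M x) ^ 2) (Icc 1 x))
    {b C : ℝ} (hb : 0 ≤ b) (hms : ∀ x : ℝ, 1 ≤ x → ∫ y in (1:ℝ)..x, (F y - M y) ^ 2 ≤ C * x ^ (1 + 2 * b)) :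
    ∃ C' : ℝ, 0 ≤ C' ∧ ∀ K : ℕ, 1 ≤ K → ∀ S : Finset ℕ, (∀ m ∈ S, m ∈ BadC (fun x => F x - M x) κ θ ∧ K ≤ m ∧ m < 2 * K) →
      (S.card : ℝ) ≤ C' * (K : ℝ) ^ (1 - 2 * (θ - b) / κ) := by
  classical
  obtain ⟨c, hc0, hc1, hcL⟩ : ∃ c : ℝ, 0 < c ∧ c ≤ 1 / 2 ∧ L * c ≤ 1 / 2 := by
    refine ⟨1 / (2 * (|L| + 1)), by positivity, ?_, ?_⟩
    · rw [div_le_div_iff₀ (by positivity) (by norm_num)]
      linarith [abs_nonneg L]
    · rw [mul_one_div, div_le_div_iff₀ (by positivity) (by norm_num)]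
      linarith [le_abs_self L]
  have hC : 0 ≤ C := by
    have h1 := hms 1 le_rfl
    rw [intervalIntegral.integral_same, Real.one_rpow, mul_one] at h1
    exact h1
  set q : ℝ := (1 + 2 * b) / κ with hq
  have hq0 : 0 ≤ q := by positivity
  set C₁ : ℝ := 16 / c * C * (3 : ℝ) ^ q with hC1
  refine ⟨max 1 C₁, le_max_of_le_left zero_le_one, fun K hK S hS => ?_⟩
  rcases Nat.lt_or_ge K 2 with hK2 | hK2
  · have hK1 : K = 1 := by omega
    have h1 : S ⊆ {1} := by
      intro m hm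
      obtain ⟨_, h2, h3⟩ := hS m hm
      rw [Finset.mem_singleton]
      omega
    have h2 : (S.card : ℝ) ≤ 1 := by
      have := Finset.card_le_card h1
      rw [Finset.card_singleton] at this
      exact_mod_cast this
    rw [hK1, Nat.cast_one, Real.one_rpow, mul_one]
    exact h2.trans (le_max_left _ _)
  have hK0 : (0:ℝ) < K := by exact_mod_cast (by omega : 0 < K)
  have hKr : (2:ℝ) ≤ K := by exact_mod_cast hK2
  set X : ℝ := (2 * (K:ℝ) + 1) ^ (1 / κ) with hX
  have hX1 : 1 ≤ X := Real.one_le_rpow (by linarith) (by positivity)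
  have hVsub : ∀ m ∈ S, Nb κ m ⊆ Icc 1 X := by
    intro m hm z hz
    obtain ⟨_, h2, h3⟩ := hS m hm
    have h2' : (K:ℝ) ≤ m := by exact_mod_cast h2
    have h3' : (m:ℝ) + 1 ≤ 2 * K := by exact_mod_cast h3
    obtain ⟨hz0, hz1, hz2⟩ := hz
    constructor
    · by_contra hcon
      push Not at hcon
      have := Real.rpow_lt_one hz0.le hcon hκ0
      linarith
    · have h4 : z = (z ^ κ) ^ (1 / κ) := by
        rw [← Real.rpow_mul hz0.le, mul_one_div_cancel hκ0.ne', Real.rpow_one]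
      rw [h4, hX]
      apply Real.rpow_le_rpow (by positivity) (by linarith) (by positivity)
  have hi := hint X hX1
  have hsum : ∑ m ∈ S, ∫ x in Nb κ m, (F x - M x) ^ 2 ≤ 4 * ∫ x in Icc 1 X, (F x - M x) ^ 2 := by
    have e1 : ∀ m ∈ S, ∫ x in Nb κ m, (F x - M x) ^ 2 =
        ∫ x in Icc 1 X, (Nb κ m).indicator (fun x => (F x - M x) ^ 2) x := by
      intro m hm
      rw [setIntegral_indicator (Nb_meas κ m), inter_eq_right.2 (hVsub m hm)]
    rw [Finset.sum_congr rfl e1, ← integral_finsetSum]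
    · rw [← integral_const_mul]
      apply setIntegral_mono_on
      · apply integrable_finsetSum
        intro m _
        exact hi.indicator (Nb_meas κ m)
      · exact hi.const_mul 4
      · exact measurableSet_Icc
      · intro x hx
        have hx0 : 0 < x := by linarith [hx.1]
        have h1 : ∑ m ∈ S, (Nb κ m).indicator (fun x => (F x - M x) ^ 2) x =
            (((S.filter fun m => x ∈ Nb κ m).card : ℕ) : ℝ) * (F x - M x) ^ 2 := by
          simp only [indicator_apply]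
          rw [Finset.sum_ite, Finset.sum_const_zero, add_zero, Finset.sum_const, nsmul_eq_mul]
        rw [h1]
        apply mul_le_mul_of_nonneg_right _ (sq_nonneg _)
        have h2 : (S.filter fun m => x ∈ Nb κ m) ⊆ Finset.Icc (⌈x ^ κ⌉₊ - 2) (⌈x ^ κ⌉₊ - 2 + 3) := by
          intro m hm
          rw [Finset.mem_filter] at hm
          obtain ⟨_, _, g1, g2⟩ := hm
          have g3 : x ^ κ ≤ ⌈x ^ κ⌉₊ := Nat.le_ceil _
          have g4 : (⌈x ^ κ⌉₊ : ℝ) < x ^ κ + 1 := Nat.ceil_lt_add_one (by positivity)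
          have g5 : (⌈x ^ κ⌉₊ : ℝ) < (m : ℝ) + 3 := by linarith
          have g6 : ⌈x ^ κ⌉₊ < m + 3 := by exact_mod_cast g5
          have g7 : (m : ℝ) ≤ (⌈x ^ κ⌉₊ : ℝ) + 1 := by linarith
          have g8 : m ≤ ⌈x ^ κ⌉₊ + 1 := by exact_mod_cast g7
          rw [Finset.mem_Icc]
          omega
        have h3 := Finset.card_le_card h2
        rw [Nat.card_Icc] at h3
        have h4 : (S.filter fun m => x ∈ Nb κ m).card ≤ 4 := by omega
        exact_mod_cast h4
    · intro m _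
      exact hi.indicator (Nb_meas κ m)
  have hms' : ∫ x in Icc 1 X, (F x - M x) ^ 2 ≤ C * X ^ (1 + 2 * b) := by
    rw [integral_Icc_eq_integral_Ioc, ← intervalIntegral.integral_of_le hX1]
    exact hms X hX1
  have hXq : X ^ (1 + 2 * b) ≤ (3:ℝ) ^ q * (K:ℝ) ^ q := by
    rw [← Real.mul_rpow (by norm_num) hK0.le, hX, ← Real.rpow_mul (by positivity)]
    rw [show 1 / κ * (1 + 2 * b) = q by rw [hq]; ring]
    apply Real.rpow_le_rpow (by positivity) (by linarith) hq0
  have hlow : (S.card : ℝ) * (c / 4 * (K : ℝ) ^ ((1 - κ + 2 * θ) / κ)) ≤ ∑ m ∈ S, ∫ x in Nb κ m, (F x - M x) ^ 2 := by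
    rw [← nsmul_eq_mul]
    apply Finset.card_nsmul_le_sum
    intro m hm
    obtain ⟨g1, g2, g3⟩ := hS m hm
    have hκ1 : κ ≤ 1 := by linarith
    refine le_trans ?_ (bad_mass hF hM hη hηθ hκ0 hκ hc0 hc1 hcL (by omega : 1 ≤ m) g1 (hi.mono_set (hVsub m hm)))
    apply mul_le_mul_of_nonneg_left _ (by positivity)
    apply Real.rpow_le_rpow hK0.le (by exact_mod_cast g2)
    exact div_nonneg (by linarith) hκ0.le
  have hKp : 0 < (K : ℝ) ^ ((1 - κ + 2 * θ) / κ) := Real.rpow_pos_of_pos hK0 _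
  have hfin : (S.card : ℝ) ≤ C₁ * (K : ℝ) ^ (1 - 2 * (θ - b) / κ) := by
    have h1 : (S.card : ℝ) * (c / 4 * (K : ℝ) ^ ((1 - κ + 2 * θ) / κ)) ≤ 4 * (C * ((3:ℝ) ^ q * (K:ℝ) ^ q)) :=
      (hlow.trans hsum).trans (mul_le_mul_of_nonneg_left (hms'.trans (mul_le_mul_of_nonneg_left hXq hC)) (by norm_num))
    have h2 : (K:ℝ) ^ q = (K : ℝ) ^ (1 - 2 * (θ - b) / κ) * (K : ℝ) ^ ((1 - κ + 2 * θ) / κ) := by
      rw [← Real.rpow_add hK0]
      congr 1
      rw [hq]
      field_simp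
      ring
    have h3 : (S.card : ℝ) * (c / 4) * (K : ℝ) ^ ((1 - κ + 2 * θ) / κ) ≤
        (4 * (C * ((3:ℝ) ^ q * (K : ℝ) ^ (1 - 2 * (θ - b) / κ)))) * (K : ℝ) ^ ((1 - κ + 2 * θ) / κ) := by
      calc _ = (S.card : ℝ) * (c / 4 * (K : ℝ) ^ ((1 - κ + 2 * θ) / κ)) := by ring
        _ ≤ _ := h1
        _ = _ := by rw [h2]; ring
    have h4 := le_of_mul_le_mul_right h3 hKp
    have h5 : (S.card : ℝ) = 4 / c * ((S.card : ℝ) * (c / 4)) := by field_simp
    rw [h5, hC1]
    calc 4 / c * ((S.card : ℝ) * (c / 4)) ≤ 4 / c * (4 * (C * ((3:ℝ) ^ q * (K : ℝ) ^ (1 - 2 * (θ - b) / κ)))) :=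
          mul_le_mul_of_nonneg_left h4 (by positivity)
      _ = _ := by ring
  refine hfin.trans (mul_le_mul_of_nonneg_right (le_max_right _ _) (by positivity))

end Pool.Agent.D0H48.Pk
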