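import Pool.Agent.R306.DimB

/-!
Hausdorff dimension of the parameters whose points `x` meet a sparse set of cells `m ≤ x ^ κ < m + 1` infinitely often.
-/

set_option autoImplicit false

open MeasureTheory Filter Topology Set Real
open scoped ENNReal NNReal

namespace Pool.Agent.D0H48.Pk

open Pool.Agent.R306.CatHit
open Pool.Agent.R306.DimB (tail_sum)

open Classical in
/-- **dimension bound** for the parameters in a compact interval -/
theorem dim_cells {a b : ℕ → ℝ} (ha : ∀ n, 1 ≤ a n) (hb : ∀ n, 0 < b n) {A B κ : ℝ} (hA : 0 < A) (hκ : 0 < κ)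
    (hinf : Tendsto (fun n : ℕ => Real.log (pt a b n A) / Real.log n) atTop atTop)
    {Bad : Set ℕ} {C η s : ℝ} (hC : 0 ≤ C) (hs : 0 < s) (hsη : 0 < s - 1 + η)
    (h : ∀ K : ℕ, 1 ≤ K → (((Finset.Ico K (2 * K)).filter (fun m => m ∈ Bad)).card : ℝ) ≤
      C * (K : ℝ) ^ (1 - η)) :
    μH[s] {α : ℝ | α ∈ Icc A B ∧ ∃ᶠ n in atTop, ∃ m ∈ Bad,
      (m : ℝ) ≤ (pt a b n α) ^ κ ∧ (pt a b n α) ^ κ < m + 1} = 0 := by
  obtain ⟨C', hC', htail⟩ := tail_sum hC hs hsη h
  set t : ℝ := s - 1 + η with ht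
  rcases lt_or_ge B A with hBA | hBA
  · have : {α : ℝ | α ∈ Icc A B ∧ ∃ᶠ n in atTop, ∃ m ∈ Bad,
      (m : ℝ) ≤ (pt a b n α) ^ κ ∧ (pt a b n α) ^ κ < m + 1} = ∅ := by
      apply eq_empty_of_forall_notMem
      rintro α ⟨hα, _⟩
      linarith [hα.1, hα.2]
    rw [this, measure_empty]
  have hB : 0 < B := by linarith
  have hpt : ∀ n x, 0 < x → 0 < pt a b n x := fun n x hx =>
    mul_pos (hb n) (Real.rpow_pos_of_pos hx _)
  -- growth of the points at the left end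
  have hgrow : ∀ᶠ n : ℕ in atTop, 2 * ((n : ℝ) ^ (2 / t)) ≤ (pt a b n A) ^ κ := by
    have h1 := hinf.eventually_ge_atTop ((2 / t + 1) / κ)
    filter_upwards [h1, eventually_ge_atTop 2] with n hn hn2
    have hn0 : (2:ℝ) ≤ n := by exact_mod_cast hn2
    have hln : 0 < Real.log n := Real.log_pos (by linarith)
    rw [le_div_iff₀ hln] at hn
    have h2 : (n : ℝ) ^ ((2 / t + 1) / κ) ≤ pt a b n A := by
      rw [← Real.exp_log (hpt n A hA), Real.rpow_def_of_pos (by linarith)]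
      apply Real.exp_le_exp.2
      linarith
    calc 2 * ((n : ℝ) ^ (2 / t)) ≤ (n : ℝ) * (n : ℝ) ^ (2 / t) :=
          mul_le_mul_of_nonneg_right hn0 (by positivity)
      _ = ((n : ℝ) ^ ((2 / t + 1) / κ)) ^ κ := by
          rw [← Real.rpow_mul (by linarith), div_mul_cancel₀ _ hκ.ne', Real.rpow_add (by linarith), Real.rpow_one]
          ring
      _ ≤ (pt a b n A) ^ κ := Real.rpow_le_rpow (by positivity) h2 hκ.le
  obtain ⟨n₁, hn₁⟩ := eventually_atTop.1 (hgrow.and (eventually_ge_atTop 1))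
  -- the majorants
  set Mn : ℕ → ℕ := fun n => ⌊(pt a b n A) ^ κ⌋₊ with hMn
  have hMn1 : ∀ n, n₁ ≤ n → (n : ℝ) ^ (2 / t) ≤ Mn n ∧ 1 ≤ Mn n := by
    intro n hn
    obtain ⟨h1, h2⟩ := hn₁ n hn
    have hn0 : (1:ℝ) ≤ n := by exact_mod_cast h2
    have h3 : (1:ℝ) ≤ (n : ℝ) ^ (2 / t) := Real.one_le_rpow hn0 (by positivity)
    have h4 := (Nat.sub_one_lt_floor ((pt a b n A) ^ κ)).le
    have h5 : (n : ℝ) ^ (2 / t) ≤ Mn n := by
      rw [hMn]
      dsimp only
      linarith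
    refine ⟨h5, ?_⟩
    have h6 : (1:ℝ) ≤ Mn n := h3.trans h5
    exact_mod_cast h6
  set B' : ℝ := B / κ with hB'
  have hB'0 : 0 < B' := by positivity
  set f : ℕ → ℝ≥0∞ := fun n => if n₁ ≤ n then
    ENNReal.ofReal (B' ^ s * (C' * (n : ℝ) ^ (-2 : ℝ))) else 0 with hf
  have hfsum : ∑' n, f n ≠ ∞ := by
    have hsm : Summable fun n : ℕ => B' ^ s * (C' * (n : ℝ) ^ (-2 : ℝ)) :=
      ((Real.summable_nat_rpow.2 (by norm_num)).mul_left C').mul_left _
    refine ne_top_of_le_ne_top ?_ (ENNReal.tsum_le_tsum (g := fun n : ℕ =>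
      ENNReal.ofReal (B' ^ s * (C' * (n : ℝ) ^ (-2 : ℝ)))) fun n => ?_)
    · rw [← ENNReal.ofReal_tsum_of_nonneg (fun n => by positivity) hsm]
      exact ENNReal.ofReal_ne_top
    · rw [hf]
      dsimp only
      split_ifs
      · exact le_rfl
      · exact zero_le
  -- the covering sets
  set T : ℕ → ℕ → Set ℝ := fun n m => if n₁ ≤ n ∧ m ∈ Bad then
    {α : ℝ | α ∈ Icc A B ∧ (m : ℝ) ≤ (pt a b n α) ^ κ ∧ (pt a b n α) ^ κ < m + 1} else ∅ with hT
  have hmono : ∀ n x y, 0 < x → x ≤ y → pt a b n x ≤ pt a b n y := by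
    intro n x y hx hxy
    unfold pt
    exact mul_le_mul_of_nonneg_left (Real.rpow_le_rpow hx.le hxy (by linarith [ha n])) (hb n).le
  have hdiam : ∀ n m, Metric.ediam (T n m) ≤ if m ∈ Bad ∧ Mn n ≤ m ∧ n₁ ≤ n then
      ENNReal.ofReal (B' / m) else 0 := by
    intro n m
    by_cases hc : n₁ ≤ n ∧ m ∈ Bad
    swap
    · rw [hT]
      dsimp only
      rw [if_neg hc, Metric.ediam_empty]
      exact zero_le
    have hTe : T n m = {α : ℝ | α ∈ Icc A B ∧ (m : ℝ) ≤ (pt a b n α) ^ κ ∧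
        (pt a b n α) ^ κ < m + 1} := by
      rw [hT]
      dsimp only
      rw [if_pos hc]
    by_cases hne : (T n m).Nonempty
    swap
    · rw [not_nonempty_iff_eq_empty.1 hne, Metric.ediam_empty]
      exact zero_le
    obtain ⟨α₁, hα₁⟩ := hne
    rw [hTe] at hα₁
    have hMm : Mn n ≤ m := by
      have h1 : pt a b n A ≤ pt a b n α₁ := hmono n A α₁ hA hα₁.1.1
      have h2 : (pt a b n A) ^ κ < m + 1 :=
        (Real.rpow_le_rpow (hpt n A hA).le h1 hκ.le).trans_lt hα₁.2.2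
      have h3 : Mn n < m + 1 := by
        rw [hMn]
        dsimp only
        rw [Nat.floor_lt (Real.rpow_nonneg (hpt n A hA).le _)]
        push_cast
        exact h2
      omega
    rw [if_pos ⟨hc.2, hMm, hc.1⟩]
    have hm1 : 1 ≤ m := (hMn1 n hc.1).2.trans hMm
    have hm0 : (0:ℝ) < m := by exact_mod_cast hm1
    -- distances
    have hd : ∀ x ∈ T n m, ∀ y ∈ T n m, x ≤ y → y - x ≤ B' / m := by
      intro x hx y hy hxy
      rw [hTe] at hx hy
      have hx0 : 0 < x := lt_of_lt_of_le hA hx.1.1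
      have hy0 : 0 < y := lt_of_lt_of_le hA hy.1.1
      have hr1 : 1 ≤ y / x := (one_le_div hx0).2 hxy
      have hr0 : 0 < y / x := by positivity
      have e1 : (pt a b n y) ^ κ = (pt a b n x) ^ κ * (y / x) ^ (a n * κ) := by
        unfold pt
        rw [Real.mul_rpow (hb n).le (by positivity), Real.mul_rpow (hb n).le (by positivity),
          ← Real.rpow_mul hy0.le, ← Real.rpow_mul hx0.le, Real.div_rpow hy0.le hx0.le]
        have hxp : x ^ (a n * κ) ≠ 0 := (Real.rpow_pos_of_pos hx0 _).ne'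
        field_simp
      have h1 : (m : ℝ) * (y / x) ^ (a n * κ) < m + 1 := by
        calc (m : ℝ) * (y / x) ^ (a n * κ) ≤ (pt a b n x) ^ κ * (y / x) ^ (a n * κ) :=
              mul_le_mul_of_nonneg_right hx.2.1 (by positivity)
          _ = (pt a b n y) ^ κ := e1.symm
          _ < m + 1 := hy.2.2
      have h2 : (y / x) ^ κ ≤ (y / x) ^ (a n * κ) := by
        apply Real.rpow_le_rpow_of_exponent_le hr1
        nlinarith [ha n]
      have h3 : (y / x) ^ κ < 1 + 1 / m := by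
        have h4 := lt_of_le_of_lt (mul_le_mul_of_nonneg_left h2 hm0.le) h1
        have e2 : (1:ℝ) + 1 / m = (m + 1) / m := by field_simp
        rw [e2, lt_div_iff₀ hm0]
        linarith
      have h5 : κ * Real.log (y / x) ≤ 1 / m := by
        have h6 : Real.log ((y / x) ^ κ) ≤ (y / x) ^ κ - 1 := Real.log_le_sub_one_of_pos (Real.rpow_pos_of_pos hr0 _)
        rw [Real.log_rpow hr0] at h6
        linarith
      have h7 : 1 - (y / x)⁻¹ ≤ Real.log (y / x) := Real.one_sub_inv_le_log_of_pos hr0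
      have h8 : 1 - x / y ≤ 1 / (κ * m) := by
        rw [inv_div] at h7
        have h9 : κ * (1 - x / y) ≤ 1 / m := (mul_le_mul_of_nonneg_left h7 hκ.le).trans h5
        rw [le_div_iff₀ (by positivity)]
        rw [le_div_iff₀ hm0] at h9
        nlinarith
      have h10 : y - x = y * (1 - x / y) := by field_simp
      rw [h10]
      calc y * (1 - x / y) ≤ y * (1 / (κ * m)) := mul_le_mul_of_nonneg_left h8 hy0.le
        _ ≤ B * (1 / (κ * m)) := mul_le_mul_of_nonneg_right hy.1.2 (by positivity)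
        _ = B' / m := by rw [hB']; field_simp
    apply Metric.ediam_le
    intro x hx y hy
    rw [edist_dist, Real.dist_eq]
    apply ENNReal.ofReal_le_ofReal
    rcases le_total x y with hxy | hxy
    · rw [abs_sub_comm, abs_of_nonneg (by linarith)]
      exact hd x hx y hy hxy
    · rw [abs_of_nonneg (by linarith)]
      exact hd y hy x hx hxy
  have hrow : ∀ n, ∑' m : ℕ, Metric.ediam (T n m) ^ s ≤ f n := by
    intro n
    by_cases hn : n₁ ≤ n
    swap
    · have h1 : ∀ m, Metric.ediam (T n m) ^ s = 0 := by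
        intro m
        have h2 := hdiam n m
        rw [if_neg (fun h => hn h.2.2)] at h2
        rw [le_antisymm h2 (zero_le), ENNReal.zero_rpow_of_pos hs]
      simp only [h1, tsum_zero]
      exact zero_le
    obtain ⟨g1, g2⟩ := hMn1 n hn
    have hn1 : 1 ≤ n := (hn₁ n hn).2
    have hn0 : (0:ℝ) < n := by exact_mod_cast hn1
    have h1 : ∀ m : ℕ, Metric.ediam (T n m) ^ s ≤ ENNReal.ofReal (B' ^ s) *
        (if m ∈ Bad ∧ Mn n ≤ m then ENNReal.ofReal ((m : ℝ) ^ (-s)) else 0) := by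
      intro m
      refine (ENNReal.rpow_le_rpow (hdiam n m) hs.le).trans ?_
      by_cases hc : m ∈ Bad ∧ Mn n ≤ m
      · rw [if_pos ⟨hc.1, hc.2, hn⟩, if_pos hc]
        have hm1 : 1 ≤ m := g2.trans hc.2
        have hm0 : (0:ℝ) < m := by exact_mod_cast hm1
        rw [ENNReal.ofReal_rpow_of_pos (by positivity), ← ENNReal.ofReal_mul (by positivity),
          Real.div_rpow hB'0.le hm0.le, Real.rpow_neg hm0.le]
        exact le_of_eq (by rw [div_eq_mul_inv])
      · rw [if_neg hc, if_neg (fun h => hc ⟨h.1, h.2.1⟩), ENNReal.zero_rpow_of_pos hs]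
        simp
    calc ∑' m : ℕ, Metric.ediam (T n m) ^ s
        ≤ ∑' m : ℕ, ENNReal.ofReal (B' ^ s) *
          (if m ∈ Bad ∧ Mn n ≤ m then ENNReal.ofReal ((m : ℝ) ^ (-s)) else 0) :=
          ENNReal.tsum_le_tsum h1
      _ = ENNReal.ofReal (B' ^ s) * ∑' m : ℕ,
          (if m ∈ Bad ∧ Mn n ≤ m then ENNReal.ofReal ((m : ℝ) ^ (-s)) else 0) :=
          ENNReal.tsum_mul_left
      _ ≤ ENNReal.ofReal (B' ^ s) * ENNReal.ofReal (C' * (Mn n : ℝ) ^ (-t)) := by
          gcongr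
          exact htail (Mn n) g2
      _ ≤ f n := by
          rw [hf]
          dsimp only
          rw [if_pos hn, ← ENNReal.ofReal_mul (by positivity)]
          apply ENNReal.ofReal_le_ofReal
          apply mul_le_mul_of_nonneg_left _ (by positivity)
          apply mul_le_mul_of_nonneg_left _ hC'.le
          calc (Mn n : ℝ) ^ (-t) ≤ ((n : ℝ) ^ (2 / t)) ^ (-t) :=
                Real.rpow_le_rpow_of_nonpos (Real.rpow_pos_of_pos hn0 _) g1 (by linarith)
            _ = (n : ℝ) ^ (-2 : ℝ) := by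
                rw [← Real.rpow_mul hn0.le]
                congr 1
                field_simp
  have htot : ∀ N : ℕ, ∑' p : ℕ × ℕ, Metric.ediam (T (p.1 + N) p.2) ^ s ≤ ∑' k, f (k + N) := by
    intro N
    rw [ENNReal.tsum_prod']
    exact ENNReal.tsum_le_tsum fun k => hrow (k + N)
  have htail0 : Tendsto (fun N => ∑' k, f (k + N)) atTop (𝓝 0) := ENNReal.tendsto_sum_nat_add f hfsum
  have hr0 : Tendsto (fun N => (∑' k, f (k + N)) ^ (1 / s)) atTop (𝓝 0) := by
    have h1 := (ENNReal.continuous_rpow_const (y := 1 / s)).tendsto 0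
    rw [ENNReal.zero_rpow_of_pos (by positivity)] at h1
    exact h1.comp htail0
  have hmain := MeasureTheory.Measure.hausdorffMeasure_le_liminf_tsum (X := ℝ) (ι := fun _ : ℕ => ℕ × ℕ)
    s {α : ℝ | α ∈ Icc A B ∧ ∃ᶠ n in atTop, ∃ m ∈ Bad,
      (m : ℝ) ≤ (pt a b n α) ^ κ ∧ (pt a b n α) ^ κ < m + 1} (l := atTop)
    (fun N => (∑' k, f (k + N)) ^ (1 / s)) hr0 (fun N p => T (p.1 + N) p.2) ?_ ?_
  · refine le_antisymm (hmain.trans ?_) (zero_le)
    have h2 : liminf (fun N => ∑' k, f (k + N)) atTop = 0 := htail0.liminf_eq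
    rw [← h2]
    exact liminf_le_liminf (Eventually.of_forall fun N => htot N)
  · refine Eventually.of_forall fun N p => ?_
    have h1 : Metric.ediam (T (p.1 + N) p.2) ^ s ≤ ∑' k, f (k + N) :=
      (ENNReal.le_tsum (f := fun p : ℕ × ℕ => Metric.ediam (T (p.1 + N) p.2) ^ s) p).trans (htot N)
    calc Metric.ediam (T (p.1 + N) p.2) = (Metric.ediam (T (p.1 + N) p.2) ^ s) ^ (1 / s) := by
          rw [← ENNReal.rpow_mul, mul_one_div_cancel hs.ne', ENNReal.rpow_one]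
      _ ≤ _ := ENNReal.rpow_le_rpow h1 (by positivity)
  · refine Eventually.of_forall fun N => ?_
    rintro α ⟨hα, hfr⟩
    obtain ⟨n, hn, m, hm, h1, h2⟩ := frequently_atTop.1 hfr (max N n₁)
    rw [mem_iUnion]
    refine ⟨(n - N, m), ?_⟩
    have e : n - N + N = n := by
      have := (le_max_left N n₁).trans hn
      omega
    change α ∈ T (n - N + N) m
    rw [e, hT]
    dsimp only
    rw [if_pos ⟨(le_max_right N n₁).trans hn, hm⟩]
    exact ⟨hα, h1, h2⟩

/-- the same for all parameters to the right of `α₀` -/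
theorem dim_all {a b : ℕ → ℝ} (ha : ∀ n, 1 ≤ a n) (hb : ∀ n, 0 < b n) {α₀ κ : ℝ} (h0 : 0 ≤ α₀) (hκ : 0 < κ)
    (hgr : ∀ α : ℝ, α₀ < α → Tendsto (fun n : ℕ => Real.log (pt a b n α) / Real.log n) atTop atTop)
    {Bad : Set ℕ} {C η s : ℝ} (hC : 0 ≤ C) (hs : 0 < s) (hsη : 0 < s - 1 + η)
    (h : ∀ K : ℕ, 1 ≤ K → ∀ F : Finset ℕ, (∀ m ∈ F, m ∈ Bad ∧ K ≤ m ∧ m < 2 * K) →
      (F.card : ℝ) ≤ C * (K : ℝ) ^ (1 - η)) :
    μH[s] {α : ℝ | α₀ < α ∧ ∃ᶠ n in atTop, ∃ m ∈ Bad,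
      (m : ℝ) ≤ (pt a b n α) ^ κ ∧ (pt a b n α) ^ κ < m + 1} = 0 := by
  classical
  have hpiece : ∀ j : ℕ, μH[s] {α : ℝ | α ∈ Icc (α₀ + 1 / ((j : ℝ) + 1)) j ∧ ∃ᶠ n in atTop, ∃ m ∈ Bad,
      (m : ℝ) ≤ (pt a b n α) ^ κ ∧ (pt a b n α) ^ κ < m + 1} = 0 := by
    intro j
    have hj : (0:ℝ) < 1 / ((j : ℝ) + 1) := by positivity
    refine dim_cells (A := α₀ + 1 / ((j : ℝ) + 1)) (B := j) ha hb (by linarith) hκ
      (hgr _ (by linarith)) (Bad := Bad) hC hs hsη (fun K hK => ?_)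
    apply h K hK
    intro m hm
    rw [Finset.mem_filter, Finset.mem_Ico] at hm
    exact ⟨hm.2, hm.1.1, hm.1.2⟩
  have hU : μH[s] (⋃ j : ℕ, {α : ℝ | α ∈ Icc (α₀ + 1 / ((j : ℝ) + 1)) j ∧ ∃ᶠ n in atTop, ∃ m ∈ Bad,
      (m : ℝ) ≤ (pt a b n α) ^ κ ∧ (pt a b n α) ^ κ < m + 1}) = 0 := measure_iUnion_null hpiece
  refine measure_mono_null ?_ hU
  rintro α ⟨hα, hfr⟩
  have hα0 : 0 < α := by linarith
  rw [mem_iUnion]
  obtain ⟨j₁, hj₁⟩ := exists_nat_gt (1 / (α - α₀))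
  obtain ⟨j₂, hj₂⟩ := exists_nat_gt α
  have hd : 0 < α - α₀ := by linarith
  refine ⟨max j₁ j₂, ⟨?_, ?_⟩, hfr⟩
  · have h1 : (1 / (α - α₀)) < (max j₁ j₂ : ℕ) := hj₁.trans_le (by exact_mod_cast le_max_left _ _)
    have h2 : (0:ℝ) < ((max j₁ j₂ : ℕ) : ℝ) + 1 := by positivity
    have h3 : 1 / (((max j₁ j₂ : ℕ) : ℝ) + 1) ≤ α - α₀ := by
      rw [div_lt_iff₀ hd] at h1
      rw [div_le_iff₀ h2]
      nlinarith
    linarith
  · exact (hj₂.trans_le (by exact_mod_cast le_max_right _ _)).le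

end Pool.Agent.D0H48.Pk
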