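import Pool.Agent.D0H48.Pk.Count
import Pool.Agent.D0H48.Pk.Dim
import Pool.Agent.R306.Win

/-!
The Piltz divisor problem along `b_n α ^ (a_n)`: measure, dimension and category.
-/

set_option autoImplicit false

open MeasureTheory Filter Topology Set Real

namespace Pool.Agent.D0H48.Pk

open Pool.Agent.R306.CatHit

/-- polynomials in the logarithm grow slowly -/
lemma poly_log (Q : Polynomial ℝ) : ∀ η : ℝ, 0 < η → ∃ A : ℝ, 0 ≤ A ∧ ∀ w : ℝ, 1 / 2 ≤ w → |Q.eval (Real.log w)| ≤ A * w ^ η := by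
  have hlog : ∀ η : ℝ, 0 < η → ∃ A : ℝ, 0 ≤ A ∧ ∀ w : ℝ, 1 / 2 ≤ w → |Real.log w| ≤ A * w ^ η := by
    intro η hη
    refine ⟨1 / η + 2 ^ η, by positivity, fun w hw => ?_⟩
    have hw0 : 0 < w := by linarith
    have h1 : Real.log w ≤ w ^ η / η := Real.log_le_rpow_div hw0.le hη
    have h2 : -Real.log w ≤ 1 := by
      have h3 : Real.log (1 / 2) ≤ Real.log w := Real.log_le_log (by norm_num) hw
      have h4 : Real.log (1 / 2 : ℝ) = - Real.log 2 := by rw [one_div, Real.log_inv]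
      have := Real.log_two_lt_d9
      linarith
    have h3 : 1 ≤ (2:ℝ) ^ η * w ^ η := by
      rw [← Real.mul_rpow (by norm_num) hw0.le]
      exact Real.one_le_rpow (by linarith) hη.le
    have h4 : 0 < w ^ η := Real.rpow_pos_of_pos hw0 _
    have h5 : (1 / η + 2 ^ η) * w ^ η = w ^ η / η + 2 ^ η * w ^ η := by ring
    rw [h5]
    have h6 : 0 ≤ w ^ η / η := by positivity
    rw [abs_le]
    constructor <;> linarith
  induction Q using Polynomial.induction_on' with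
  | add p q hp hq =>
    intro η hη
    obtain ⟨A, hA0, hA⟩ := hp η hη
    obtain ⟨B, hB0, hB⟩ := hq η hη
    refine ⟨A + B, by positivity, fun w hw => ?_⟩
    rw [Polynomial.eval_add, add_mul]
    exact (abs_add_le _ _).trans (add_le_add (hA w hw) (hB w hw))
  | monomial n a =>
    induction n generalizing a with
    | zero =>
      intro η hη
      refine ⟨|a| * 2 ^ η, by positivity, fun w hw => ?_⟩
      have h3 : 1 ≤ (2:ℝ) ^ η * w ^ η := by
        rw [← Real.mul_rpow (by norm_num) (by linarith)]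
        exact Real.one_le_rpow (by linarith) hη.le
      rw [Polynomial.eval_monomial, pow_zero, mul_one]
      nlinarith [abs_nonneg a]
    | succ n ih =>
      intro η hη
      obtain ⟨A, hA0, hA⟩ := ih a (η / 2) (by linarith)
      obtain ⟨B, hB0, hB⟩ := hlog (η / 2) (by linarith)
      refine ⟨A * B, by positivity, fun w hw => ?_⟩
      have hw0 : 0 < w := by linarith
      have e1 : (Polynomial.monomial (n + 1) a).eval (Real.log w) = (Polynomial.monomial n a).eval (Real.log w) * Real.log w := by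
        rw [Polynomial.eval_monomial, Polynomial.eval_monomial, pow_succ]
        ring
      rw [e1, abs_mul]
      calc |(Polynomial.monomial n a).eval (Real.log w)| * |Real.log w| ≤ (A * w ^ (η / 2)) * (B * w ^ (η / 2)) :=
            mul_le_mul (hA w hw) (hB w hw) (abs_nonneg _) (by positivity)
        _ = A * B * w ^ η := by
            have : w ^ η = w ^ (η / 2) * w ^ (η / 2) := by rw [← Real.rpow_add hw0]; congr 1; ring
            rw [this]; ring

/-- the main term -/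
noncomputable def Mt (P : Polynomial ℝ) (x : ℝ) : ℝ := x * P.eval (Real.log x)

lemma Mt_deriv (P : Polynomial ℝ) {x : ℝ} (hx : 0 < x) :
    HasDerivAt (Mt P) ((P + Polynomial.derivative P).eval (Real.log x)) x := by
  have h1 : HasDerivAt (fun x => P.eval (Real.log x)) ((Polynomial.derivative P).eval (Real.log x) * x⁻¹) x :=
    (P.hasDerivAt (Real.log x)).comp x (Real.hasDerivAt_log hx.ne')
  have h2 := (hasDerivAt_id x).mul h1
  refine h2.congr_deriv ?_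
  rw [Polynomial.eval_add]
  simp only [id]
  field_simp

lemma Mt_slow (P : Polynomial ℝ) {η : ℝ} (hη : 0 < η) : ∃ L : ℝ, Slow (Mt P) L η := by
  obtain ⟨A, hA0, hA⟩ := poly_log (P + Polynomial.derivative P) η hη
  refine ⟨A * 2 ^ η, fun y z hy hz1 hz2 => ?_⟩
  have h := Convex.norm_image_sub_le_of_norm_hasDerivWithin_le (f := Mt P)
    (f' := fun w => (P + Polynomial.derivative P).eval (Real.log w)) (s := Icc (y / 2) (2 * y)) (x := y) (y := z)
    (C := A * 2 ^ η * y ^ η) (fun w hw => (Mt_deriv P (by linarith [hw.1])).hasDerivWithinAt) (fun w hw => ?_)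
    (convex_Icc _ _) ⟨by linarith, by linarith⟩ ⟨hz1, hz2⟩
  · rw [Real.norm_eq_abs, Real.norm_eq_abs] at h
    exact h
  · rw [Real.norm_eq_abs]
    have hw1 : y / 2 ≤ w := hw.1
    have hw2 : w ≤ 2 * y := hw.2
    refine (hA w (by linarith)).trans ?_
    rw [mul_assoc, ← Real.mul_rpow (by norm_num) (by linarith)]
    exact mul_le_mul_of_nonneg_left (Real.rpow_le_rpow (by linarith) hw2 hη.le) hA0

lemma Mt_cont (P : Polynomial ℝ) : ContinuousOn (Mt P) (Ioi 0) := fun _ hx =>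
  (Mt_deriv P hx).continuousAt.continuousWithinAt

/-- the summatory function of `d_k` -/
noncomputable def Dk (k : ℕ) (x : ℝ) : ℝ :=
  ∑ n ∈ Finset.Icc 1 ⌊x⌋₊, (((ArithmeticFunction.zeta ^ k : ArithmeticFunction ℕ) n : ℕ) : ℝ)

lemma Dk_mono (k : ℕ) : Monotone (Dk k) := by
  intro x y hxy
  unfold Dk
  apply Finset.sum_le_sum_of_subset_of_nonneg
  · intro n hn
    rw [Finset.mem_Icc] at hn ⊢
    exact ⟨hn.1, hn.2.trans (Nat.floor_le_floor hxy)⟩
  · intro n _ _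
    positivity

lemma int_sq (k : ℕ) (P : Polynomial ℝ) (x : ℝ) (_hx : 1 ≤ x) : IntegrableOn (fun x => (Dk k x - Mt P x) ^ 2) (Icc 1 x) := by
  have hc : ContinuousOn (Mt P) (Icc 1 x) := (Mt_cont P).mono fun y hy => lt_of_lt_of_le one_pos hy.1
  obtain ⟨B, hB⟩ := isCompact_Icc.exists_bound_of_continuousOn hc
  have hm : AEStronglyMeasurable (fun x => (Dk k x - Mt P x) ^ 2) (volume.restrict (Icc 1 x)) := by
    have h1 : AEStronglyMeasurable (Dk k) (volume.restrict (Icc 1 x)) := (Dk_mono k).measurable.aestronglyMeasurable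
    have h2 : AEStronglyMeasurable (Mt P) (volume.restrict (Icc 1 x)) := hc.aestronglyMeasurable measurableSet_Icc
    exact (h1.sub h2).pow 2
  refine IntegrableOn.of_bound (by simp) hm ((Dk k x + B) ^ 2) ?_
  rw [ae_restrict_iff' measurableSet_Icc]
  refine Eventually.of_forall fun y hy => ?_
  rw [Real.norm_eq_abs, abs_of_nonneg (sq_nonneg _), ← sq_abs]
  have h1 := (Dk_mono k) hy.2
  have h2 : 0 ≤ Dk k y := by unfold Dk; positivity
  have h3 := hB y hy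
  rw [Real.norm_eq_abs] at h3
  apply pow_le_pow_left₀ (abs_nonneg _)
  rw [abs_le]
  have h4 := abs_le.1 h3
  constructor <;> linarith [h4.1, h4.2]

lemma pt_pos' {a b : ℕ → ℝ} {α : ℝ} (hb : ∀ n, 0 < b n) (hα : 0 < α) (n : ℕ) : 0 < pt a b n α :=
  mul_pos (hb n) (Real.rpow_pos_of_pos hα _)

/-- **dimension** of the exceptional sets -/
theorem haus_pk (k : ℕ) (P : Polynomial ℝ) {β C : ℝ} (hβ : 0 ≤ β)
    (hms : ∀ x : ℝ, 1 ≤ x → ∫ y in (1:ℝ)..x, (Dk k y - Mt P y) ^ 2 ≤ C * x ^ (1 + 2 * β))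
    {a b : ℕ → ℝ} {α₀ : ℝ} (h0 : 0 ≤ α₀) (ha : ∀ n, 1 ≤ a n) (hb : ∀ n, 0 < b n)
    (hgr : ∀ α : ℝ, α₀ < α → Tendsto (fun n : ℕ => Real.log (pt a b n α) / Real.log n) atTop atTop)
    {θ s : ℝ} (hθ : β < θ) (hθ1 : θ < 1) (hs : 0 < s) (hsθ : 1 - 2 * (θ - β) / (1 - θ) < s) :
    μH[s] {α : ℝ | α₀ < α ∧ ∃ᶠ n in atTop, (pt a b n α) ^ θ < |Dk k (pt a b n α) - Mt P (pt a b n α)|} = 0 := by
  have hθ0 : 0 < θ := by linarith
  -- the choice of `η`
  obtain ⟨η, hη0, hηθ, hη⟩ : ∃ η : ℝ, 0 < η ∧ η ≤ θ ∧ 0 < s - 1 + 2 * (θ - β) / (1 - θ + η) := by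
    have hc : ContinuousAt (fun η : ℝ => s - 1 + 2 * (θ - β) / (1 - θ + η)) 0 := by
      have : (1 - θ + 0) ≠ 0 := by
        intro h; linarith
      fun_prop (disch := assumption)
    have h1 : 0 < s - 1 + 2 * (θ - β) / (1 - θ + 0) := by
      rw [add_zero]; linarith
    have h2 : ∀ᶠ η in 𝓝[>] (0:ℝ), 0 < s - 1 + 2 * (θ - β) / (1 - θ + η) :=
      (hc.eventually (lt_mem_nhds h1)).filter_mono nhdsWithin_le_nhds
    have h3 : ∀ᶠ η in 𝓝[>] (0:ℝ), η ∈ Ioc 0 θ := Ioc_mem_nhdsGT hθ0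
    obtain ⟨η, h4, h5⟩ := (h2.and h3).exists
    exact ⟨η, h5.1, h5.2, h4⟩
  set κ : ℝ := 1 - θ + η with hκ
  have hκ0 : 0 < κ := by linarith
  obtain ⟨L, hL⟩ := Mt_slow P hη0
  obtain ⟨C', hC', hcount⟩ := bad_count (Dk_mono k) hL hη0.le hηθ hκ0 hκ (int_sq k P) hβ hms
  have h1 := dim_all (Bad := BadC (fun x => Dk k x - Mt P x) κ θ) (η := 2 * (θ - β) / κ) ha hb h0 hκ0 hgr hC' hs hη
    (fun K hK S hS => hcount K hK S hS)
  refine measure_mono_null ?_ h1
  rintro α ⟨hα, hfr⟩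
  refine ⟨hα, hfr.mono fun n hn => ?_⟩
  have hp := pt_pos' hb (lt_of_le_of_lt h0 hα) (a := a) n
  refine ⟨⌊(pt a b n α) ^ κ⌋₊, ⟨pt a b n α, hp, Nat.floor_le (by positivity), Nat.lt_floor_add_one _, hn⟩,
    Nat.floor_le (by positivity), Nat.lt_floor_add_one _⟩

/-- the dimension bound -/
theorem dim_pk (k : ℕ) (P : Polynomial ℝ) {β C : ℝ} (hβ : 0 ≤ β)
    (hms : ∀ x : ℝ, 1 ≤ x → ∫ y in (1:ℝ)..x, (Dk k y - Mt P y) ^ 2 ≤ C * x ^ (1 + 2 * β))
    {a b : ℕ → ℝ} {α₀ : ℝ} (h0 : 0 ≤ α₀) (ha : ∀ n, 1 ≤ a n) (hb : ∀ n, 0 < b n)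
    (hgr : ∀ α : ℝ, α₀ < α → Tendsto (fun n : ℕ => Real.log (pt a b n α) / Real.log n) atTop atTop)
    {θ : ℝ} (hθ : β < θ) (hθ1 : θ < 1) :
    dimH {α : ℝ | α₀ < α ∧ ∃ᶠ n in atTop, (pt a b n α) ^ θ < |Dk k (pt a b n α) - Mt P (pt a b n α)|} ≤
      ENNReal.ofReal (1 - 2 * (θ - β) / (1 - θ)) := by
  apply le_of_forall_gt_imp_ge_of_dense
  intro d hd
  rcases eq_or_ne d ⊤ with h1 | h1
  · rw [h1]; exact le_top
  · have hd0 : 0 < d := lt_of_le_of_lt (zero_le) hd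
    have hs0 : 0 < d.toReal := ENNReal.toReal_pos hd0.ne' h1
    have hsd : 1 - 2 * (θ - β) / (1 - θ) < d.toReal := by
      by_contra hcon
      push Not at hcon
      have h2 := ENNReal.ofReal_le_ofReal hcon
      rw [ENNReal.ofReal_toReal h1] at h2
      exact absurd hd (not_lt.2 h2)
    have h2 := haus_pk k P hβ hms h0 ha hb hgr hθ hθ1 hs0 hsd
    have h3 := dimH_le_of_hausdorffMeasure_ne_top (d := d.toNNReal) (s := {α : ℝ | α₀ < α ∧ ∃ᶠ n in atTop, (pt a b n α) ^ θ < |Dk k (pt a b n α) - Mt P (pt a b n α)|}) (by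
      rw [show ((d.toNNReal : NNReal) : ℝ) = d.toReal from rfl, h2]
      exact ENNReal.zero_ne_top)
    rwa [ENNReal.coe_toNNReal h1] at h3

/-- **almost all parameters** -/
theorem ae_pk (k : ℕ) (P : Polynomial ℝ) {β C : ℝ} (hβ : 0 ≤ β) (hβ1 : β < 1)
    (hms : ∀ x : ℝ, 1 ≤ x → ∫ y in (1:ℝ)..x, (Dk k y - Mt P y) ^ 2 ≤ C * x ^ (1 + 2 * β))
    {a b : ℕ → ℝ} {α₀ : ℝ} (h0 : 0 ≤ α₀) (ha : ∀ n, 1 ≤ a n) (hb : ∀ n, 0 < b n)
    (hinf : ∀ α : ℝ, α₀ < α → Tendsto (fun n => pt a b n α) atTop atTop)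
    (hgr : ∀ α : ℝ, α₀ < α → Tendsto (fun n : ℕ => Real.log (pt a b n α) / Real.log n) atTop atTop) :
    ∀ᵐ α : ℝ, α₀ < α → ∀ θ : ℝ, β < θ → ∀ᶠ n in atTop,
      |Dk k (pt a b n α) - Mt P (pt a b n α)| ≤ (pt a b n α) ^ θ := by
  have key : ∀ q : ℚ, ∀ᵐ α : ℝ, α₀ < α → β < q → (q : ℝ) < 1 → ∀ᶠ n in atTop,
      |Dk k (pt a b n α) - Mt P (pt a b n α)| ≤ (pt a b n α) ^ (q : ℝ) := by
    intro q
    by_cases hq : β < q ∧ (q : ℝ) < 1
    · have h1 := haus_pk (s := 1) k P hβ hms h0 ha hb hgr hq.1 hq.2 one_pos (by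
        have : 0 < 2 * ((q:ℝ) - β) / (1 - q) := div_pos (by linarith [hq.1]) (by linarith [hq.2])
        linarith)
      rw [MeasureTheory.hausdorffMeasure_real] at h1
      rw [ae_iff]
      refine measure_mono_null ?_ h1
      intro α hα
      have hα' : ¬ (α₀ < α → β < q → (q : ℝ) < 1 → ∀ᶠ n in atTop,
        |Dk k (pt a b n α) - Mt P (pt a b n α)| ≤ (pt a b n α) ^ (q : ℝ)) := hα
      push Not at hα'
      refine ⟨hα'.1, ?_⟩
      exact hα'.2.2.2.mono fun n hn => hn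
    · refine Eventually.of_forall fun α _ h1 h2 => absurd ⟨h1, h2⟩ hq
  have key2 := ae_all_iff.2 key
  filter_upwards [key2] with α hα hα0 θ hθ
  obtain ⟨q, hq1, hq2⟩ := exists_rat_btwn (lt_min hθ hβ1)
  filter_upwards [hα q hα0 hq1 (hq2.trans_le (min_le_right _ _)), (hinf α hα0).eventually_ge_atTop 1] with n hn hn1
  exact hn.trans (Real.rpow_le_rpow_of_exponent_le hn1 (hq2.le.trans (min_le_left _ _)))

/-- **generic parameters, one-sided large values** -/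
theorem cat_pk (k : ℕ) (P : Polynomial ℝ) {a b : ℕ → ℝ} {α₀ : ℝ} (h0 : 0 ≤ α₀) (ha : ∀ n, 0 < a n) (hb : ∀ n, 0 < b n)
    (har : Tendsto (fun n => a (n + 1) / a n) atTop (𝓝 1))
    (hbr : Tendsto (fun n => (Real.log (b (n + 1)) - Real.log (b n)) / a n) atTop (𝓝 0))
    (hinf : ∀ α : ℝ, α₀ < α → Tendsto (fun n => pt a b n α) atTop atTop)
    {φ : ℝ → ℝ} (hφ : ContinuousOn φ (Ioi 0)) :
    ((∃ᶠ x in atTop, φ x < Dk k x - Mt P x) → ∀ᶠ α in residual ℝ, α₀ < α → ∃ᶠ n in atTop,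
      φ (pt a b n α) < Dk k (pt a b n α) - Mt P (pt a b n α)) ∧
    ((∃ᶠ x in atTop, Dk k x - Mt P x < φ x) → ∀ᶠ α in residual ℝ, α₀ < α → ∃ᶠ n in atTop,
      Dk k (pt a b n α) - Mt P (pt a b n α) < φ (pt a b n α)) ∧
    ((∃ᶠ x in atTop, φ x < |Dk k x - Mt P x|) → ∀ᶠ α in residual ℝ, α₀ < α → ∃ᶠ n in atTop,
      φ (pt a b n α) < |Dk k (pt a b n α) - Mt P (pt a b n α)|) := by
  have hF : MonotoneOn (Dk k) (Ioi 0) := (Dk_mono k).monotoneOn _
  have hpos : ∀ {p : ℝ → Prop}, (∃ᶠ x in atTop, p x) → ∃ᶠ x in atTop, 0 < x ∧ p x := fun h =>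
    (h.and_eventually (eventually_gt_atTop 0)).mono fun x hx => ⟨hx.2, hx.1⟩
  refine ⟨fun h => ?_, fun h => ?_, fun h => ?_⟩
  · filter_upwards [residual_pt h0 ha hb har hbr hinf (Pool.Agent.R306.Win.up hF (Mt_cont P) hφ) (hpos h)] with α h1 h2
    exact (h1 h2).mono fun n hn => hn.2
  · filter_upwards [residual_pt h0 ha hb har hbr hinf (Pool.Agent.R306.Win.down hF (Mt_cont P) hφ) (hpos h)] with α h1 h2
    exact (h1 h2).mono fun n hn => hn.2
  · filter_upwards [residual_pt h0 ha hb har hbr hinf (Pool.Agent.R306.Win.both hF (Mt_cont P) hφ) (hpos h)] with α h1 h2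
    exact (h1 h2).mono fun n hn => hn.2

/-- bounds for large `x` and for all `x ≥ 1` -/
lemma bound_iff (k : ℕ) (P : Polynomial ℝ) (θ : ℝ) :
    (∃ C : ℝ, ∀ᶠ x : ℝ in atTop, |Dk k x - Mt P x| ≤ C * x ^ θ) ↔ ∃ C : ℝ, ∀ x : ℝ, 1 ≤ x → |Dk k x - Mt P x| ≤ C * x ^ θ := by
  constructor
  · rintro ⟨C, hC⟩
    obtain ⟨X₀, hX₀⟩ := eventually_atTop.1 hC
    set X : ℝ := max X₀ 1 with hX
    have hc : ContinuousOn (Mt P) (Icc 1 X) := (Mt_cont P).mono fun y hy => lt_of_lt_of_le one_pos hy.1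
    obtain ⟨B, hB⟩ := isCompact_Icc.exists_bound_of_continuousOn hc
    have hX1 : 1 ≤ X := le_max_right _ _
    have hB0 : 0 ≤ B := (norm_nonneg _).trans (hB 1 ⟨le_rfl, hX1⟩)
    have hD0 : ∀ y, 0 ≤ Dk k y := fun y => by unfold Dk; positivity
    set D : ℝ := (Dk k X + B) / min 1 (X ^ θ) with hD
    have hmin : 0 < min 1 (X ^ θ) := lt_min one_pos (Real.rpow_pos_of_pos (by linarith) _)
    have hDn : 0 ≤ D := div_nonneg (add_nonneg (hD0 X) hB0) hmin.le
    refine ⟨max C D, fun x hx => ?_⟩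
    have hx0 : 0 < x ^ θ := Real.rpow_pos_of_pos (by linarith) _
    rcases le_total X x with h1 | h1
    · exact (hX₀ x ((le_max_left _ _).trans h1)).trans (mul_le_mul_of_nonneg_right (le_max_left _ _) hx0.le)
    · have h2 := hB x ⟨hx, h1⟩
      rw [Real.norm_eq_abs] at h2
      have h3 := (Dk_mono k) h1
      have h4 : |Dk k x - Mt P x| ≤ Dk k X + B := by
        rw [abs_le]
        have h5 := abs_le.1 h2
        have := hD0 x
        have := hD0 X
        constructor <;> linarith [h5.1, h5.2]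
      have h5 : min 1 (X ^ θ) ≤ x ^ θ := by
        rcases le_total 0 θ with h6 | h6
        · exact (min_le_left _ _).trans (Real.one_le_rpow hx h6)
        · exact (min_le_right _ _).trans (Real.rpow_le_rpow_of_nonpos (by linarith) h1 h6)
      calc |Dk k x - Mt P x| ≤ Dk k X + B := h4
        _ = D * min 1 (X ^ θ) := by rw [hD]; field_simp
        _ ≤ D * x ^ θ := mul_le_mul_of_nonneg_left h5 hDn
        _ ≤ max C D * x ^ θ := mul_le_mul_of_nonneg_right (le_max_right _ _) hx0.le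
  · rintro ⟨C, hC⟩
    exact ⟨C, (eventually_ge_atTop 1).mono hC⟩

/-- **generic parameters see the exponent** -/
theorem exp_pk (k : ℕ) (P : Polynomial ℝ) {a b : ℕ → ℝ} {α₀ : ℝ} (h0 : 0 ≤ α₀) (ha : ∀ n, 0 < a n) (hb : ∀ n, 0 < b n)
    (har : Tendsto (fun n => a (n + 1) / a n) atTop (𝓝 1))
    (hbr : Tendsto (fun n => (Real.log (b (n + 1)) - Real.log (b n)) / a n) atTop (𝓝 0))
    (hinf : ∀ α : ℝ, α₀ < α → Tendsto (fun n => pt a b n α) atTop atTop) :
    ∀ᶠ α in residual ℝ, α₀ < α → ∀ θ : ℝ,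
      ((∃ C : ℝ, ∀ᶠ n in atTop, |Dk k (pt a b n α) - Mt P (pt a b n α)| ≤ C * (pt a b n α) ^ θ) ↔
        ∃ C : ℝ, ∀ x : ℝ, 1 ≤ x → |Dk k x - Mt P x| ≤ C * x ^ θ) := by
  set S : Set ℝ := {θ : ℝ | ∃ C : ℝ, ∀ᶠ x : ℝ in atTop, |Dk k x - Mt P x| ≤ C * x ^ θ} with hS
  have hSup : ∀ θ ∈ S, ∀ θ' : ℝ, θ ≤ θ' → θ' ∈ S := by
    rintro θ ⟨C, hC⟩ θ' hθ
    refine ⟨|C|, ?_⟩
    filter_upwards [hC, eventually_ge_atTop 1] with x hx hx1
    have h1 : 0 < x ^ θ := Real.rpow_pos_of_pos (by linarith) _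
    calc _ ≤ C * x ^ θ := hx
      _ ≤ |C| * x ^ θ := mul_le_mul_of_nonneg_right (le_abs_self _) h1.le
      _ ≤ |C| * x ^ θ' := mul_le_mul_of_nonneg_left (Real.rpow_le_rpow_of_exponent_le hx1 hθ) (abs_nonneg _)
  -- one exponent
  have one : ∀ θ : ℝ, ∀ᶠ α in residual ℝ, α₀ < α → θ ∉ S →
      ¬ ∃ C : ℝ, ∀ᶠ n in atTop, |Dk k (pt a b n α) - Mt P (pt a b n α)| ≤ C * (pt a b n α) ^ θ := by
    intro θ
    by_cases hθ : θ ∈ S
    · exact Eventually.of_forall fun α _ h => absurd hθ h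
    have h1 : ∀ N : ℕ, ∀ᶠ α in residual ℝ, α₀ < α → ∃ᶠ n in atTop,
        (N : ℝ) * (pt a b n α) ^ θ < |Dk k (pt a b n α) - Mt P (pt a b n α)| := by
      intro N
      refine (cat_pk k P h0 ha hb har hbr hinf (φ := fun x => (N:ℝ) * x ^ θ) ?_).2.2 ?_
      · apply continuousOn_const.mul
        exact ContinuousOn.rpow_const continuousOn_id fun x hx => Or.inl (ne_of_gt hx)
      · have h2 : ¬ ∀ᶠ x : ℝ in atTop, |Dk k x - Mt P x| ≤ N * x ^ θ := fun h => hθ ⟨N, h⟩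
        rw [Filter.not_eventually] at h2
        exact h2.mono fun x hx => not_le.1 hx
    rw [← eventually_countable_forall] at h1
    filter_upwards [h1] with α hα hα0 _ hcon
    obtain ⟨C, hC⟩ := hcon
    obtain ⟨N, hN⟩ := exists_nat_ge C
    obtain ⟨n, hn1, hn2, hn3⟩ := ((hα N hα0).and_eventually (hC.and ((hinf α hα0).eventually_gt_atTop 0))).exists
    have h3 : 0 < (pt a b n α) ^ θ := Real.rpow_pos_of_pos hn3 _
    have h4 : C * (pt a b n α) ^ θ ≤ N * (pt a b n α) ^ θ := mul_le_mul_of_nonneg_right hN h3.le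
    linarith
  -- countably many exponents
  have hall : ∀ᶠ α in residual ℝ, ∀ q : ℚ, α₀ < α → (q:ℝ) ∉ S →
      ¬ ∃ C : ℝ, ∀ᶠ n in atTop, |Dk k (pt a b n α) - Mt P (pt a b n α)| ≤ C * (pt a b n α) ^ (q:ℝ) := by
    rw [eventually_countable_forall]
    exact fun q => one q
  filter_upwards [hall, one (sInf S)] with α h1 h2 hα θ
  rw [← bound_iff]
  constructor
  · intro h
    by_contra hcon
    have hθS : θ ∉ S := hcon
    by_cases hex : ∃ q : ℚ, θ < q ∧ (q:ℝ) ∉ S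
    · obtain ⟨q, hq1, hq2⟩ := hex
      apply h1 q hα hq2
      obtain ⟨C, hC⟩ := h
      refine ⟨|C|, ?_⟩
      filter_upwards [hC, (hinf α hα).eventually_ge_atTop 1] with n hn hn1
      have h3 : 0 < (pt a b n α) ^ θ := Real.rpow_pos_of_pos (by linarith) _
      calc _ ≤ C * (pt a b n α) ^ θ := hn
        _ ≤ |C| * (pt a b n α) ^ θ := mul_le_mul_of_nonneg_right (le_abs_self _) h3.le
        _ ≤ |C| * (pt a b n α) ^ (q:ℝ) :=
          mul_le_mul_of_nonneg_left (Real.rpow_le_rpow_of_exponent_le hn1 hq1.le) (abs_nonneg _)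
    · push Not at hex
      have h3 : ∀ t : ℝ, θ < t → t ∈ S := by
        intro t ht
        obtain ⟨q, hq1, hq2⟩ := exists_rat_btwn ht
        exact hSup q (hex q hq1) t hq2.le
      have h4 : sInf S = θ := by
        apply le_antisymm
        · refine le_of_forall_gt_imp_ge_of_dense fun t ht => ?_
          refine csInf_le ⟨θ, fun s hs => ?_⟩ (h3 t ht)
          by_contra hlt
          push Not at hlt
          exact hθS (hSup s hs θ hlt.le)
        · refine le_csInf ⟨θ + 1, h3 _ (by linarith)⟩ fun s hs => ?_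
          by_contra hlt
          push Not at hlt
          exact hθS (hSup s hs θ hlt.le)
      rw [h4] at h2
      exact h2 hα hθS h
  · rintro ⟨C, hC⟩
    exact ⟨C, (hinf α hα).eventually hC⟩

end Pool.Agent.D0H48.Pk
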