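import Pool.Agent.R461.GC.G8
import Pool.Agent.D0H48.Pk.Main

/-!
The mean square for `k = 2`.
-/

set_option autoImplicit false

open MeasureTheory Filter Topology Set Real

namespace Pool.Agent.D0H48.Pk

open Pool.Agent.H387R2.Vor (Ed Del Dsum dv)
open Pool.Agent.R461.GC

lemma decay (t : ℝ) (ht : 1 ≤ |t|) :
    ‖∫ x in Icc (1:ℝ) 2, Complex.exp (((t * x : ℝ) : ℂ) * Complex.I)‖ ≤ 2 * |t| ^ (-1 : ℝ) := by
  have ht0 : t ≠ 0 := by
    intro h
    rw [h, abs_zero] at ht
    linarith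
  have hc : (t : ℂ) * Complex.I ≠ 0 := mul_ne_zero (by exact_mod_cast ht0) Complex.I_ne_zero
  have e1 : ∀ x : ℝ, Complex.exp (((t * x : ℝ) : ℂ) * Complex.I) = Complex.exp ((t : ℂ) * Complex.I * x) := by
    intro x
    congr 1
    push_cast
    ring
  rw [integral_Icc_eq_integral_Ioc, ← intervalIntegral.integral_of_le (by norm_num)]
  simp_rw [e1]
  rw [integral_exp_mul_complex hc, norm_div, norm_mul, Complex.norm_I, mul_one, Complex.norm_real, Real.norm_eq_abs,
    Real.rpow_neg_one, ← div_eq_mul_inv]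
  apply div_le_div_of_nonneg_right _ (abs_nonneg t)
  refine (norm_sub_le _ _).trans ?_
  have e2 : ∀ x : ℝ, ‖Complex.exp ((t : ℂ) * Complex.I * x)‖ = 1 := by
    intro x
    rw [← e1, Complex.norm_exp_ofReal_mul_I]
  rw [e2, e2]
  norm_num

/-- one block -/
lemma block : ∃ V T₀ : ℝ, 0 ≤ V ∧ 1 ≤ T₀ ∧ ∀ T : ℝ, T₀ ≤ T → ∫ x in Icc (T ^ 2) (4 * T ^ 2), (Del x) ^ 2 ≤ V * T ^ 3 := by
  obtain ⟨ν, G, -, -, -, -, -, -, -, h8⟩ := divisor_law
  obtain ⟨T₀, hT₀⟩ := h8 1 2 2 1 one_pos (by norm_num) (fun x => x ^ 2) (by fun_prop) ⟨1, fun x => by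
    rw [abs_of_nonneg (sq_nonneg x)]
    linarith⟩ 1 one_pos
  set W : ℝ := ∫ x, x ^ 2 ∂(ν : Measure ℝ) + 1 with hW
  have hW0 : 0 ≤ W := by
    have : 0 ≤ ∫ x, x ^ 2 ∂(ν : Measure ℝ) := integral_nonneg fun x => sq_nonneg x
    linarith
  refine ⟨8 * W, max T₀ 1, by positivity, le_max_right _ _, fun T hT => ?_⟩
  have hT1 : 1 ≤ T := (le_max_right _ _).trans hT
  have hT0 : 0 < T := by linarith
  have hprob : IsProbabilityMeasure (volume.restrict (Icc (1:ℝ) 2)) := ⟨by
    rw [Measure.restrict_apply_univ, Real.volume_Icc]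
    norm_num⟩
  have h9 := hT₀ T ((le_max_left _ _).trans hT) (volume.restrict (Icc (1:ℝ) 2)) hprob
    ((ae_restrict_iff' measurableSet_Icc).2 (Eventually.of_forall fun x hx => ⟨hx.1, hx.2⟩))
    (fun t ht => decay t (le_trans (Real.one_le_rpow hT1 (by norm_num)) ht))
  have h10 : ∫ x in Icc (1:ℝ) 2, (Ed (T * x)) ^ 2 ≤ W := by
    have := (abs_le.1 h9).2
    rw [hW]
    linarith
  -- substitution
  have himg : (fun y : ℝ => (T * y) ^ 2) '' Icc 1 2 = Icc (T ^ 2) (4 * T ^ 2) := by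
    ext x
    constructor
    · rintro ⟨y, ⟨hy1, hy2⟩, rfl⟩
      constructor
      · show T ^ 2 ≤ (T * y) ^ 2
        rw [mul_pow]
        have : (1:ℝ) ≤ y ^ 2 := one_le_pow₀ hy1
        nlinarith [sq_nonneg T]
      · show (T * y) ^ 2 ≤ 4 * T ^ 2
        rw [mul_pow]
        have : y ^ 2 ≤ 4 := by nlinarith
        nlinarith [sq_nonneg T]
    · rintro ⟨hx1, hx2⟩
      have hx0 : 0 ≤ x := le_trans (sq_nonneg T) hx1
      refine ⟨√x / T, ⟨?_, ?_⟩, ?_⟩
      · rw [le_div_iff₀ hT0, one_mul]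
        exact Real.le_sqrt_of_sq_le hx1
      · rw [div_le_iff₀ hT0]
        apply Real.sqrt_le_iff.2
        exact ⟨by positivity, by nlinarith⟩
      · show (T * (√x / T)) ^ 2 = x
        rw [mul_div_cancel₀ _ hT0.ne', Real.sq_sqrt hx0]
  have hinj : InjOn (fun y : ℝ => (T * y) ^ 2) (Icc 1 2) := by
    intro y hy z hz hyz
    have h1 : (T * y) ^ 2 = (T * z) ^ 2 := hyz
    have h2 : T * y = T * z := by
      rwa [pow_left_inj₀ (by nlinarith [hy.1]) (by nlinarith [hz.1]) two_ne_zero] at h1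
    exact mul_left_cancel₀ hT0.ne' h2
  have hder : ∀ y ∈ Icc (1:ℝ) 2, HasDerivWithinAt (fun y : ℝ => (T * y) ^ 2) (2 * T ^ 2 * y) (Icc 1 2) y := by
    intro y _
    have h1 : HasDerivAt (fun y : ℝ => (T * y) ^ 2) (2 * T ^ 2 * y) y := by
      have h2 := ((hasDerivAt_id y).const_mul T).pow 2
      refine h2.congr_deriv ?_
      simp only [id]
      push_cast
      ring
    exact h1.hasDerivWithinAt
  have hsub := MeasureTheory.integral_image_eq_integral_abs_deriv_smul measurableSet_Icc hder hinj (fun x => (Del x) ^ 2)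
  rw [himg] at hsub
  rw [hsub]
  -- comparison
  have hint : IntegrableOn (fun x : ℝ => (Ed (T * x)) ^ 2) (Icc 1 2) := by
    obtain ⟨B, hB⟩ := E2_bdd (2 * T) (4 * T) (by linarith)
    have hEm : Measurable Ed := by
      have := Del_meas
      unfold Ed
      fun_prop
    refine IntegrableOn.of_bound (by simp) ((hEm.comp (measurable_const_mul T)).pow_const 2).aestronglyMeasurable (B ^ 2) ?_
    rw [ae_restrict_iff' measurableSet_Icc]
    refine Eventually.of_forall fun y hy => ?_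
    have h1 := hB (2 * (T * y)) (by nlinarith [hy.1]) (by nlinarith [hy.2])
    unfold Pool.Agent.H383.Div.E2 at h1
    rw [show 2 * (T * y) / 2 = T * y by ring] at h1
    rw [Real.norm_eq_abs, abs_of_nonneg (sq_nonneg _), ← sq_abs]
    exact pow_le_pow_left₀ (abs_nonneg _) h1 2
  calc ∫ y in Icc (1:ℝ) 2, |2 * T ^ 2 * y| • (Del ((T * y) ^ 2)) ^ 2
      ≤ ∫ y in Icc (1:ℝ) 2, 8 * T ^ 3 * (Ed (T * y)) ^ 2 := by
        apply integral_mono_of_nonneg
        · exact Eventually.of_forall fun y => by simp only [Pi.zero_apply, smul_eq_mul]; positivity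
        · exact hint.const_mul _
        · change ∀ᵐ y ∂(volume.restrict (Icc (1:ℝ) 2)), |2 * T ^ 2 * y| • (Del ((T * y) ^ 2)) ^ 2 ≤ 8 * T ^ 3 * (Ed (T * y)) ^ 2
          rw [ae_restrict_iff' measurableSet_Icc]
          refine Eventually.of_forall fun y hy => ?_
          have hy1 : 1 ≤ y := hy.1
          have hy2 : y ≤ 2 := hy.2
          have hTy : 0 < T * y := by positivity
          have e1 : (Del ((T * y) ^ 2)) ^ 2 = (Ed (T * y)) ^ 2 * (T * y) := by
            unfold Ed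
            rw [div_pow, Real.sq_sqrt hTy.le]
            field_simp
          have e2 : |2 * T ^ 2 * y| = 2 * T ^ 2 * y := abs_of_nonneg (by positivity)
          rw [e1, e2, smul_eq_mul]
          have h3 : y * y ≤ 4 := by nlinarith
          calc 2 * T ^ 2 * y * ((Ed (T * y)) ^ 2 * (T * y)) = (2 * T ^ 3 * (Ed (T * y)) ^ 2) * (y * y) := by ring
            _ ≤ (2 * T ^ 3 * (Ed (T * y)) ^ 2) * 4 := mul_le_mul_of_nonneg_left h3 (by positivity)
            _ = _ := by ring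
    _ = 8 * T ^ 3 * ∫ y in Icc (1:ℝ) 2, (Ed (T * y)) ^ 2 := by rw [integral_const_mul]
    _ ≤ 8 * T ^ 3 * W := mul_le_mul_of_nonneg_left h10 (by positivity)
    _ = 8 * W * T ^ 3 := by ring

lemma Del_int (u v : ℝ) (hu : 0 < u) : IntervalIntegrable (fun x => (Del x) ^ 2) volume u v ∨ v < u := by
  rcases lt_or_ge v u with h | h
  · exact Or.inr h
  · left
    obtain ⟨B, _, hB⟩ := Del_bdd u v hu
    rw [intervalIntegrable_iff_integrableOn_Icc_of_le h]
    refine IntegrableOn.of_bound (by simp) (Del_meas.pow_const 2).aestronglyMeasurable (B ^ 2) ?_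
    rw [ae_restrict_iff' measurableSet_Icc]
    refine Eventually.of_forall fun y hy => ?_
    rw [Real.norm_eq_abs, abs_of_nonneg (sq_nonneg _), ← sq_abs]
    exact pow_le_pow_left₀ (abs_nonneg _) (hB y hy.1 hy.2) 2

/-- **Cramér's bound** -/
theorem ms_Del : ∃ C : ℝ, ∀ x : ℝ, 1 ≤ x → ∫ y in (1:ℝ)..x, (Del y) ^ 2 ≤ C * x ^ (1 + 2 * (1 / 4 : ℝ)) := by
  obtain ⟨V, T₀, hV, hT₀, hbl⟩ := block
  have hII : ∀ u v : ℝ, 0 < u → u ≤ v → IntervalIntegrable (fun x => (Del x) ^ 2) volume u v := fun u v hu huv =>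
    (Del_int u v hu).resolve_right (not_lt.2 huv)
  set X₀ : ℝ := 4 * T₀ ^ 2 with hX₀
  have hX₀1 : 1 ≤ X₀ := by nlinarith
  set B : ℝ := ∫ y in (1:ℝ)..X₀, (Del y) ^ 2 with hB
  have hB0 : 0 ≤ B := intervalIntegral.integral_nonneg hX₀1 fun y _ => sq_nonneg _
  have hbase : ∀ x : ℝ, 1 ≤ x → x ≤ X₀ → ∫ y in (1:ℝ)..x, (Del y) ^ 2 ≤ B := by
    intro x hx hx2
    rw [hB, ← intervalIntegral.integral_add_adjacent_intervals (hII 1 x one_pos hx) (hII x X₀ (by linarith) hx2)]
    have : 0 ≤ ∫ y in x..X₀, (Del y) ^ 2 := intervalIntegral.integral_nonneg hx2 fun y _ => sq_nonneg _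
    linarith
  set C : ℝ := B + V with hC
  have key : ∀ n : ℕ, ∀ x : ℝ, 1 ≤ x → x ≤ 4 ^ n * X₀ → ∫ y in (1:ℝ)..x, (Del y) ^ 2 ≤ C * (√x) ^ 3 := by
    intro n
    induction n with
    | zero =>
      intro x hx hx2
      rw [pow_zero, one_mul] at hx2
      have h1 : (1:ℝ) ≤ √x := by rw [Real.one_le_sqrt]; exact hx
      have h2 : (1:ℝ) ≤ (√x) ^ 3 := one_le_pow₀ h1
      calc _ ≤ B := hbase x hx hx2
        _ ≤ C * 1 := by rw [hC]; linarith
        _ ≤ C * (√x) ^ 3 := mul_le_mul_of_nonneg_left h2 (by positivity)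
    | succ n ih =>
      intro x hx hx2
      rcases le_or_gt x X₀ with h0 | h0
      · have h1 : (1:ℝ) ≤ √x := by rw [Real.one_le_sqrt]; exact hx
        have h2 : (1:ℝ) ≤ (√x) ^ 3 := one_le_pow₀ h1
        calc _ ≤ B := hbase x hx h0
          _ ≤ C * 1 := by rw [hC]; linarith
          _ ≤ C * (√x) ^ 3 := mul_le_mul_of_nonneg_left h2 (by positivity)
      · have hx4 : 1 ≤ x / 4 := by nlinarith
        have h1 := ih (x / 4) hx4 (by rw [pow_succ] at hx2; linarith)
        have h2 := hbl (√x / 2) (by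
          rw [le_div_iff₀ (by norm_num)]
          apply Real.le_sqrt_of_sq_le
          nlinarith)
        have hx0 : 0 ≤ x := by linarith
        have e1 : (√x / 2) ^ 2 = x / 4 := by rw [div_pow, Real.sq_sqrt hx0]; norm_num
        rw [e1, show 4 * (x / 4) = x by ring] at h2
        rw [← intervalIntegral.integral_add_adjacent_intervals (hII 1 (x / 4) one_pos hx4) (hII (x / 4) x (by linarith) (by linarith)),
          intervalIntegral.integral_of_le (show x / 4 ≤ x by linarith), ← integral_Icc_eq_integral_Ioc]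
        have e2 : √(x / 4) = √x / 2 := by
          rw [Real.sqrt_div' _ (by norm_num), show (4:ℝ) = 2 ^ 2 by norm_num, Real.sqrt_sq (by norm_num)]
        rw [e2] at h1
        have h3 : 0 ≤ (√x) ^ 3 := by positivity
        have e3 : (√x / 2) ^ 3 = (√x) ^ 3 / 8 := by ring
        rw [e3] at h1 h2
        have h4 : C * ((√x) ^ 3 / 8) + V * ((√x) ^ 3 / 8) ≤ C * (√x) ^ 3 := by
          have h5 : V ≤ C := by rw [hC]; linarith
          have h6 : 0 ≤ C := by positivity
          nlinarith [mul_nonneg h6 h3, mul_le_mul_of_nonneg_right h5 h3]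
        linarith
  refine ⟨C, fun x hx => ?_⟩
  obtain ⟨n, hn⟩ := pow_unbounded_of_one_lt x (by norm_num : (1:ℝ) < 4)
  have h1 := key n x hx (by nlinarith [pow_pos (by norm_num : (0:ℝ) < 4) n])
  have e1 : (√x) ^ 3 = x ^ (1 + 2 * (1 / 4 : ℝ)) := by
    rw [Real.sqrt_eq_rpow, ← Real.rpow_natCast, ← Real.rpow_mul (by linarith)]
    congr 1
    norm_num
  rwa [e1] at h1

/-- the main term for `k = 2` -/
noncomputable def P2 : Polynomial ℝ := Polynomial.X + Polynomial.C (2 * Real.eulerMascheroniConstant - 1)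

lemma Del_eq (x : ℝ) : Dk 2 x - Mt P2 x = Del x := by
  have h1 : Dk 2 x = Dsum x := by
    unfold Dk Dsum
    refine Finset.sum_congr rfl fun n _ => ?_
    unfold dv
    have h2 : (ArithmeticFunction.zeta ^ 2 : ArithmeticFunction ℕ) = ArithmeticFunction.sigma 0 := by
      rw [pow_two, ← ArithmeticFunction.zeta_mul_pow_eq_sigma, ArithmeticFunction.pow_zero_eq_zeta]
    rw [h2, ArithmeticFunction.sigma_zero_apply]
  rw [h1]
  unfold Mt Del P2
  simp only [Polynomial.eval_add, Polynomial.eval_X, Polynomial.eval_C]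
  ring

theorem ms_two : ∃ C : ℝ, ∀ x : ℝ, 1 ≤ x → ∫ y in (1:ℝ)..x, (Dk 2 y - Mt P2 y) ^ 2 ≤ C * x ^ (1 + 2 * (1 / 4 : ℝ)) := by
  simp_rw [Del_eq]
  exact ms_Del

end Pool.Agent.D0H48.Pk
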